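import Pool.Agent.Helper32.OIP.Goals

set_option autoImplicit false

namespace Pool.Agent.Helper31.OIP

open MeasureTheory Pool.Agent.Helper32.OIP Pool.Agent.Helper58.Orb
open scoped ENNReal

/-- resampling -/
noncomputable def res {C : Type} (y : Bern C) (w : C → Nz) : Bern C :=
  fun c => if (w c).1 = true then (w c).2 else y c

theorem s3 : GoalS3 := by
  classical
  intro hMA1 hMA2 hS0 C K _ κ hκ q hq0 hq1 hdl
  obtain ⟨hnu, hnz, _, _⟩ := (hS0 hMA1).1 q hq0 hq1.le
  haveI := hnu
  haveI := hnz
  have hprob : IsProbabilityMeasure (pm C (nz q)) := by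
    unfold pm; infer_instance
  have hprob2 : IsProbabilityMeasure (pm C (nu q)) := by
    unfold pm; infer_instance
  -- the pair of labellings
  have hmp : MeasurePreserving (fun (p : (Bern C) × (C → Nz)) (a : C) => (p.1 a, p.2 a))
      ((bern C).prod (pm C (nz q))) (pm C (nu q)) :=
    hMA2.1 C unitInterval Nz (volume : Measure unitInterval) (nz q)
  have h1 : ∀ᵐ z ∂(pm C (nu q)), κ (fs z) = κ (fs (Jb z)) := by
    unfold dl at hdl
    rw [measureReal_def, ENNReal.toReal_eq_zero_iff] at hdl
    rcases hdl with h | h
    · rw [ae_iff]; exact h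
    · exact absurd h (measure_ne_top _ _)
  have h2 : ∀ᵐ p ∂((bern C).prod (pm C (nz q))), κ p.1 = κ (res p.1 p.2) := by
    have := hmp.quasiMeasurePreserving.ae h1
    filter_upwards [this] with p hp
    have e1 : fs (fun a => (p.1 a, p.2 a)) = p.1 := rfl
    have e2 : fs (Jb (fun a => (p.1 a, p.2 a))) = res p.1 p.2 := by
      funext c
      unfold fs Jb jn res
      simp only
      split_ifs <;> rfl
    rw [e1, e2] at hp
    exact hp
  have hinf : ∀ (k : K) (g : C), influence {x | κ x = k} g = 0 := by
    intro k g
    -- the triple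
    have m1 : MeasurePreserving (Prod.map (Prod.fst : Bern C × unitInterval → Bern C)
        (id : (C → Nz) → (C → Nz)))
        ((bernP C).prod (pm C (nz q))) ((bern C).prod (pm C (nz q))) :=
      measurePreserving_fstP.prod (MeasurePreserving.id _)
    have m2 : MeasurePreserving (Prod.map (upd g) (id : (C → Nz) → (C → Nz)))
        ((bernP C).prod (pm C (nz q))) ((bern C).prod (pm C (nz q))) :=
      (measurePreserving_upd g).prod (MeasurePreserving.id _)
    have a1 := m1.quasiMeasurePreserving.ae h2
    have a2 := m2.quasiMeasurePreserving.ae h2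
    have a3 : ∀ᵐ p ∂((bernP C).prod (pm C (nz q))), (p.2 g).1 = true →
        κ p.1.1 = κ (upd g p.1) := by
      filter_upwards [a1, a2] with p b1 b2 hb
      simp only [Prod.map_fst, Prod.map_snd, id] at b1 b2
      rw [b1, b2]
      congr 1
      funext c
      unfold res
      by_cases hc : c = g
      · subst hc
        rw [if_pos hb, if_pos hb]
      · rw [upd_of_ne hc]
    set N : Set (Bern C × unitInterval) := {p | κ p.1 ≠ κ (upd g p)} with hN
    set B : Set (C → Nz) := {w | (w g).1 = true} with hB
    have a4 : ((bernP C).prod (pm C (nz q))) (N ×ˢ B) = 0 := by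
      rw [ae_iff] at a3
      refine measure_mono_null ?_ a3
      rintro p ⟨c1, c2⟩
      simp only [Set.mem_setOf_eq, Classical.not_imp]
      exact ⟨c2, c1⟩
    rw [Measure.prod_prod] at a4
    have a5 : (pm C (nz q)) B ≠ 0 := by
      have e1 : (pm C (nz q)) B = (nz q) {e | e.1 = true} := by
        have hm : MeasurableSet {e : Nz | e.1 = true} := measurable_fst (measurableSet_singleton true)
        have := (measurePreserving_eval_infinitePi (fun _ : C => nz q) g).measure_preimage
          hm.nullMeasurableSet
        exact this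
      have e2 : {e : Nz | e.1 = true} = ({true} : Set Bool) ×ˢ (Set.univ : Set unitInterval) := by
        ext e
        simp
      rw [e1, e2]
      unfold nz
      rw [Measure.prod_prod, measure_univ, mul_one]
      unfold ber
      simp only [Measure.coe_add, Measure.coe_smul, Pi.add_apply, Pi.smul_apply,
        Measure.dirac_apply, smul_eq_mul]
      simp
      linarith
    have a6 : (bernP C) N = 0 := by
      rcases mul_eq_zero.1 a4 with h | h
      · exact h
      · exact absurd h a5
    rw [influence_eq]
    refine measure_mono_null ?_ a6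
    intro p hp
    simp only [Set.mem_setOf_eq] at hp
    rw [hN, Set.mem_setOf_eq]
    intro he
    apply hp
    rw [he]
  -- zero one
  have h3 : ∃ k : K, bern C {x | κ x = k} ≠ 0 := by
    by_contra hcon
    push Not at hcon
    have : bern C (Set.univ) = 0 := by
      have e : (Set.univ : Set (Bern C)) = ⋃ k : K, {x | κ x = k} := by
        ext x
        simp
      rw [e]
      exact measure_iUnion_null hcon
    rw [measure_univ] at this
    exact one_ne_zero this
  obtain ⟨k, hk⟩ := h3
  refine ⟨k, ?_⟩
  have h4 : bern C {x | κ x = k} = 1 := (zero_one (hκ k) (hinf k)).resolve_left hk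
  have h5 : bern C {x | κ x = k}ᶜ = 0 := by
    rw [prob_compl_eq_zero_iff (hκ k)]
    exact h4
  rw [ae_iff]
  exact h5

end Pool.Agent.Helper31.OIP
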